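import Pool.Agent.Lib.MP_6c0529_co.Defs

set_option autoImplicit false

namespace Pool.Agent.Lib.MP_6c0529_co

namespace SLTree

variable {n : ℕ}

/-- The subgraph of `G` of edges on which `f` is constant. -/
def sameGraph {V α : Type*} (G : SimpleGraph V) (f : V → α) : SimpleGraph V where
  Adj v w := G.Adj v w ∧ f v = f w
  symm := ⟨fun _ _ h => ⟨h.1.symm, h.2.symm⟩⟩
  loopless := ⟨fun v h => G.loopless.irrefl v h.1⟩

lemma sameGraph_adj {V α : Type*} (G : SimpleGraph V) (f : V → α) (v w : V) :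
    (sameGraph G f).Adj v w ↔ G.Adj v w ∧ f v = f w := Iff.rfl

lemma deleteEdges_eq_sameGraph {V α : Type*} (G : SimpleGraph V) (f : V → α) :
    G.deleteEdges {e | e ∈ G.edgeSet ∧ ∃ v w, e = s(v, w) ∧ f v ≠ f w} = sameGraph G f := by
  ext v w
  simp only [SimpleGraph.deleteEdges_adj, Set.mem_setOf_eq, SimpleGraph.mem_edgeSet, sameGraph_adj]
  constructor
  · rintro ⟨h1, h2⟩
    refine ⟨h1, ?_⟩
    by_contra h3
    exact h2 ⟨h1, v, w, rfl, h3⟩
  · rintro ⟨h1, h2⟩
    refine ⟨h1, ?_⟩
    rintro ⟨_, v', w', h3, h4⟩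
    rw [Sym2.eq_iff] at h3
    rcases h3 with ⟨rfl, rfl⟩ | ⟨rfl, rfl⟩
    · exact h4 h2
    · exact h4 h2.symm

lemma eq_of_sameGraph_reachable {V α : Type*} {G : SimpleGraph V} {f : V → α} {v w : V}
    (h : (sameGraph G f).Reachable v w) : f v = f w := by
  obtain ⟨p⟩ := h
  induction p with
  | nil => rfl
  | cons h _ ih => exact h.2.trans ih

lemma ker_mem_parts (T : SLTree n) {α : Type*} (f : T.V → α)
    (h : ∀ i j, f (T.leaf i) = f (T.leaf j) →
      (sameGraph T.G f).Reachable (T.leaf i) (T.leaf j)) :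
    Setoid.ker (fun i => f (T.leaf i)) ∈ T.parts := by
  refine ⟨{e | e ∈ T.G.edgeSet ∧ ∃ v w, e = s(v, w) ∧ f v ≠ f w}, fun e he => he.1, ?_⟩
  ext i j
  change f (T.leaf i) = f (T.leaf j) ↔ (T.G.deleteEdges _).Reachable (T.leaf i) (T.leaf j)
  rw [deleteEdges_eq_sameGraph]
  exact ⟨h i j, eq_of_sameGraph_reachable⟩

/-- Relabelling the leaves. -/
def relabel (T : SLTree n) (σ : Equiv.Perm (Fin n)) : SLTree n where
  V := T.V
  finite_V := T.finite_V
  G := T.G
  isTree := T.isTree
  degree_eq := T.degree_eq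
  leaf := T.leaf ∘ σ
  leaf_injective := T.leaf_injective.comp σ.injective
  range_leaf := by
    rw [Set.range_comp, σ.surjective.range_eq, Set.image_univ, T.range_leaf]

lemma relabel_parts (T : SLTree n) (σ : Equiv.Perm (Fin n)) :
    (T.relabel σ).parts = (Setoid.comap σ) '' T.parts := by
  ext r
  constructor
  · rintro ⟨E, hE, rfl⟩
    exact ⟨T.induced E, ⟨E, hE, rfl⟩, rfl⟩
  · rintro ⟨_, ⟨E, hE, rfl⟩, rfl⟩
    exact ⟨E, hE, rfl⟩

lemma comap_injective (σ : Equiv.Perm (Fin n)) :
    Function.Injective (Setoid.comap σ : Setoid (Fin n) → Setoid (Fin n)) := by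
  intro r s h
  ext i j
  have := congrArg (fun t : Setoid (Fin n) => t.r (σ.symm i) (σ.symm j)) h
  have h2 : r.r (σ (σ.symm i)) (σ (σ.symm j)) = s.r (σ (σ.symm i)) (σ (σ.symm j)) := this
  simp only [Equiv.apply_symm_apply] at h2
  exact iff_of_eq h2

lemma relabel_inter_ncard (T F : SLTree n) (σ : Equiv.Perm (Fin n)) :
    ((T.relabel σ).parts ∩ (F.relabel σ).parts).ncard = (T.parts ∩ F.parts).ncard := by
  rw [relabel_parts, relabel_parts, ← Set.image_inter (comap_injective σ),
    Set.ncard_image_of_injective _ (comap_injective σ)]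

/-- `T` has a spine: internal vertices `u 0, …, u 4` in a path, and the leaf `i` is attached
to `u (p i)`. -/
def Spine (T : SLTree 7) (p : Fin 7 → Fin 5) : Prop :=
  ∃ u : Fin 5 → T.V, Function.Injective (Sum.elim T.leaf u) ∧
    (∀ i, T.G.Adj (T.leaf i) (u (p i))) ∧
    (∀ k l : Fin 5, k.val + 1 = l.val → T.G.Adj (u k) (u l))

lemma Spine.relabel {T : SLTree 7} {p : Fin 7 → Fin 5} (h : T.Spine p)
    (σ : Equiv.Perm (Fin 7)) : (T.relabel σ).Spine (p ∘ σ) := by
  obtain ⟨u, hu, h1, h2⟩ := h
  refine ⟨u, ?_, fun i => h1 (σ i), h2⟩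
  have e : Sum.elim (T.relabel σ).leaf u = Sum.elim T.leaf u ∘ (Equiv.sumCongr σ (Equiv.refl _)) := by
    funext x
    rcases x with x | x <;> rfl
  rw [e]
  exact hu.comp (Equiv.injective _)

/-- Label function of a partition with at most two nontrivial classes `A` and `B`. -/
def lab (A B : List (Fin 7)) (i : Fin 7) : ℕ :=
  if i ∈ A then 7 else if i ∈ B then 8 else i.val

lemma Spine.ker_mem {T : SLTree 7} {p : Fin 7 → Fin 5} (h : T.Spine p) (A B : List (Fin 7))
    (t : ℕ) (hA : ∀ a ∈ A, (p a).val ≤ t) (hB : ∀ b ∈ B, t < (p b).val) :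
    Setoid.ker (lab A B) ∈ T.parts := by
  classical
  obtain ⟨u, hu, h1, h2⟩ := h
  let g : Fin 7 ⊕ Fin 5 → ℕ := Sum.elim (lab A B) (fun k => if k.val ≤ t then 7 else 8)
  let f : T.V → ℕ := Function.extend (Sum.elim T.leaf u) g 0
  have hfl : ∀ i, f (T.leaf i) = lab A B i := by
    intro i
    have := hu.extend_apply g 0 (Sum.inl i)
    simpa [g] using this
  have hfu : ∀ k, f (u k) = if k.val ≤ t then 7 else 8 := by
    intro k
    have := hu.extend_apply g 0 (Sum.inr k)
    simpa [g] using this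
  have e : Setoid.ker (lab A B) = Setoid.ker (fun i => f (T.leaf i)) := by
    congr 1
    funext i
    exact (hfl i).symm
  rw [e]
  apply ker_mem_parts
  -- reachability along the spine
  have spine : ∀ (d : ℕ) (k l : Fin 5), k.val + d = l.val → f (u k) = f (u l) →
      (sameGraph T.G f).Reachable (u k) (u l) := by
    intro d
    induction d with
    | zero =>
      intro k l hkl _
      have : k = l := Fin.ext (by omega)
      rw [this]
    | succ d ih =>
      intro k l hkl hf
      have hl := l.isLt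
      let m : Fin 5 := ⟨k.val + d, by omega⟩
      have hfm : f (u k) = f (u m) := by
        rw [hfu, hfu] at hf ⊢
        have hm : m.val = k.val + d := rfl
        split_ifs at hf ⊢ <;> first | rfl | omega
      have r1 := ih k m rfl hfm
      have r2 : (sameGraph T.G f).Adj (u m) (u l) :=
        ⟨h2 m l (by simp only [m]; omega), hfm.symm.trans hf⟩
      exact r1.trans r2.reachable
  have spine' : ∀ (k l : Fin 5), f (u k) = f (u l) →
      (sameGraph T.G f).Reachable (u k) (u l) := by
    intro k l hf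
    rcases le_total k.val l.val with hkl | hkl
    · exact spine (l.val - k.val) k l (by omega) hf
    · exact (spine (k.val - l.val) l k (by omega) hf.symm).symm
  have hleaf : ∀ i, 7 ≤ lab A B i → f (T.leaf i) = f (u (p i)) := by
    intro i hi
    rw [hfl, hfu]
    unfold lab at hi ⊢
    have := i.isLt
    split_ifs at hi ⊢ with ha ht hb ht
    · rfl
    · exact absurd (hA i ha) ht
    · exact absurd (hB i hb) (by omega)
    · rfl
    · omega
    · omega
  intro i j hij
  by_cases hi : 7 ≤ lab A B i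
  · have hj : 7 ≤ lab A B j := by rw [← hfl, ← hij, hfl]; exact hi
    have a1 : (sameGraph T.G f).Adj (T.leaf i) (u (p i)) := ⟨h1 i, hleaf i hi⟩
    have a2 : (sameGraph T.G f).Adj (T.leaf j) (u (p j)) := ⟨h1 j, hleaf j hj⟩
    have a3 := spine' (p i) (p j) (by rw [← hleaf i hi, ← hleaf j hj]; exact hij)
    exact a1.reachable.trans (a3.trans a2.symm.reachable)
  · have hj : ¬ 7 ≤ lab A B j := by rw [← hfl, ← hij, hfl]; exact hi
    have hij' : lab A B i = lab A B j := by rw [← hfl, ← hfl]; exact hij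
    have e1 : lab A B i = i.val := by
      unfold lab at hi ⊢
      split_ifs at hi ⊢ <;> first | rfl | omega
    have e2 : lab A B j = j.val := by
      unfold lab at hj ⊢
      split_ifs at hj ⊢ <;> first | rfl | omega
    have : i = j := Fin.ext (by rw [← e1, ← e2]; exact hij')
    rw [this]

end SLTree

end Pool.Agent.Lib.MP_6c0529_co
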