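import Pool.Agent.Lib.MP_6c0529_co.Basic

set_option autoImplicit false

namespace Pool.Agent.Lib.MP_6c0529_co

namespace SLTree

open Finset

/-- In a semilabeled binary tree of size `n`, the number `m` of internal vertices satisfies
`n + 3 m = 2 (n + m - 1)`. -/
lemma internal_card {n : ℕ} (T : SLTree n) (m : ℕ)
    (hm : {v | (T.G.neighborSet v).ncard ≠ 1}.ncard = m) : n + 3 * m + 2 = 2 * (n + m) := by
  classical
  have := T.finite_V
  have : Fintype T.V := Fintype.ofFinite _
  have hdeg : ∀ v, T.G.degree v = (T.G.neighborSet v).ncard := by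
    intro v
    rw [← SimpleGraph.card_neighborSet_eq_degree, Set.ncard_eq_toFinset_card', Set.toFinset_card]
  have hsum := T.G.sum_degrees_eq_twice_card_edges
  have hedge := T.isTree.card_edgeFinset
  have hleaf : (univ.filter (fun v => (T.G.neighborSet v).ncard = 1)).card = n := by
    have h1 : (univ.filter (fun v => (T.G.neighborSet v).ncard = 1)) =
        (univ : Finset (Fin n)).image T.leaf := by
      ext v
      have := Set.ext_iff.mp T.range_leaf v
      simp only [Set.mem_range, Set.mem_ofPred_eq] at this
      simp only [mem_filter, mem_univ, true_and, mem_image]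
      exact this.symm
    rw [h1, card_image_of_injective _ T.leaf_injective, card_univ, Fintype.card_fin]
  have hint : (univ.filter (fun v => ¬ (T.G.neighborSet v).ncard = 1)).card = m := by
    rw [← hm, Set.ncard_eq_toFinset_card']
    congr 1
    ext v
    simp
  have hcard : (univ : Finset T.V).card = n + m := by
    have := card_filter_add_card_filter_not (s := (univ : Finset T.V))
      (fun v => (T.G.neighborSet v).ncard = 1)
    omega
  have hs2 : ∑ v, T.G.degree v = n + 3 * m := by
    rw [← sum_filter_add_sum_filter_not univ (fun v => (T.G.neighborSet v).ncard = 1)]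
    have e1 : ∑ v ∈ univ.filter (fun v => (T.G.neighborSet v).ncard = 1), T.G.degree v = n := by
      rw [sum_congr rfl (g := fun _ => 1)]
      · rw [sum_const, hleaf]; simp
      · intro v hv
        rw [mem_filter] at hv
        rw [hdeg, hv.2]
    have e2 : ∑ v ∈ univ.filter (fun v => ¬ (T.G.neighborSet v).ncard = 1), T.G.degree v =
        3 * m := by
      rw [sum_congr rfl (g := fun _ => 3)]
      · rw [sum_const, hint]; simp [mul_comm]
      · intro v hv
        rw [mem_filter] at hv
        rw [hdeg]
        rcases T.degree_eq v with h | h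
        · exact absurd h hv.2
        · exact h
    rw [e1, e2]
  rw [card_univ] at hcard
  rw [hcard] at hedge
  omega

/-- A caterpillar of size `7` has a spine with five internal vertices carrying
`2, 1, 1, 1, 2` leaves. -/
lemma IsCaterpillar.exists_spine {T : SLTree 7} (h : T.IsCaterpillar) :
    ∃ p : Fin 7 → Fin 5, T.Spine p ∧ ∀ k : Fin 5,
      (univ.filter (fun i => p i = k)).card = (if k.val = 0 ∨ k.val = 4 then 2 else 1) := by
  classical
  have := T.finite_V
  obtain ⟨m, ⟨φ⟩⟩ := h
  have hm : {v | (T.G.neighborSet v).ncard ≠ 1}.ncard = m := by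
    rw [← Nat.card_coe_set_eq, Nat.card_congr φ.toEquiv, Nat.card_eq_fintype_card,
      Fintype.card_fin]
  have hm5 : m = 5 := by
    have := T.internal_card m hm
    omega
  subst hm5
  let u : Fin 5 → T.V := fun k => (φ.symm k).val
  have hu_int : ∀ k, (T.G.neighborSet (u k)).ncard ≠ 1 := fun k => (φ.symm k).2
  have hu_inj : Function.Injective u := fun a b hab =>
    φ.symm.injective (Subtype.ext hab)
  have hu_adj : ∀ k l, T.G.Adj (u k) (u l) ↔ (k.val + 1 = l.val ∨ l.val + 1 = k.val) := by
    intro k l
    rw [← SimpleGraph.pathGraph_adj (n := 5), ← φ.symm.map_adj_iff]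
    rfl
  have hu_surj : ∀ v, (T.G.neighborSet v).ncard ≠ 1 → ∃ k, u k = v := by
    intro v hv
    refine ⟨φ ⟨v, hv⟩, ?_⟩
    simp [u]
  have hleaf1 : ∀ i, (T.G.neighborSet (T.leaf i)).ncard = 1 := by
    intro i
    have := Set.ext_iff.mp T.range_leaf (T.leaf i)
    exact this.mp ⟨i, rfl⟩
  have hleaf_surj : ∀ v, (T.G.neighborSet v).ncard = 1 → ∃ i, T.leaf i = v := by
    intro v hv
    have := Set.ext_iff.mp T.range_leaf v
    exact this.mpr hv
  have hne : ∀ i k, T.leaf i ≠ u k := fun i k e => hu_int k (e ▸ hleaf1 i)
  -- the unique neighbour of a leaf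
  have hnb : ∀ i, ∃ v, T.G.neighborSet (T.leaf i) = {v} := fun i =>
    Set.ncard_eq_one.mp (hleaf1 i)
  choose nb hnb using hnb
  have hnb_adj : ∀ i, T.G.Adj (T.leaf i) (nb i) := by
    intro i
    have : nb i ∈ T.G.neighborSet (T.leaf i) := by rw [hnb i]; rfl
    exact this
  have hnb_uniq : ∀ i v, T.G.Adj (T.leaf i) v → v = nb i := by
    intro i v hv
    have : v ∈ T.G.neighborSet (T.leaf i) := hv
    rw [hnb i] at this
    exact this
  have hnb_int : ∀ i, ∃ k, u k = nb i := by
    intro i
    apply hu_surj
    intro h1
    obtain ⟨j, hj⟩ := hleaf_surj _ h1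
    -- then `{leaf i, leaf j}` is closed under adjacency
    have hji : nb j = T.leaf i := (hnb_uniq j (T.leaf i) (by rw [hj]; exact (hnb_adj i).symm)).symm
    have hreach : T.G.Reachable (T.leaf i) (u 0) := T.isTree.connected.preconnected _ _
    have hcl : ∀ v w, T.G.Adj v w → (v = T.leaf i ∨ v = T.leaf j) →
        (w = T.leaf i ∨ w = T.leaf j) := by
      intro v w hvw hv
      rcases hv with rfl | rfl
      · right; rw [hj]; exact hnb_uniq i w hvw
      · left; rw [← hji]; exact hnb_uniq j w hvw
    obtain ⟨q⟩ := hreach
    have hwalk : ∀ (v w : T.V) (q : T.G.Walk v w), (v = T.leaf i ∨ v = T.leaf j) →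
        (w = T.leaf i ∨ w = T.leaf j) := by
      intro v w q
      induction q with
      | nil => exact id
      | cons h _ ih => exact fun hv => ih (hcl _ _ h hv)
    rcases hwalk _ _ q (Or.inl rfl) with h2 | h2
    · exact hne i 0 h2.symm
    · exact hne j 0 h2.symm
  choose p hp using hnb_int
  refine ⟨p, ⟨u, ?_, ?_, ?_⟩, ?_⟩
  · rintro (a | a) (b | b) hab
    · exact congrArg Sum.inl (T.leaf_injective hab)
    · exact absurd hab (hne a b)
    · exact absurd hab.symm (hne b a)
    · exact congrArg Sum.inr (hu_inj hab)
  · intro i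
    rw [hp i]
    exact hnb_adj i
  · intro k l hkl
    exact (hu_adj k l).mpr (Or.inl hkl)
  · intro k
    have hset : T.G.neighborSet (u k) =
        ((univ.filter (fun i => p i = k)).image T.leaf ∪
          (univ.filter (fun l : Fin 5 => k.val + 1 = l.val ∨ l.val + 1 = k.val)).image u :
          Finset T.V) := by
      ext v
      simp only [SimpleGraph.mem_neighborSet, coe_union, coe_image, coe_filter, mem_univ,
        true_and, Set.mem_union, Set.mem_image, Set.mem_ofPred_eq]
      constructor
      · intro hv
        by_cases h1 : (T.G.neighborSet v).ncard = 1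
        · obtain ⟨i, rfl⟩ := hleaf_surj v h1
          left
          refine ⟨i, hu_inj ?_, rfl⟩
          rw [hp i]
          exact (hnb_uniq i _ hv.symm).symm
        · obtain ⟨l, rfl⟩ := hu_surj v h1
          right
          exact ⟨l, (hu_adj k l).mp hv, rfl⟩
      · rintro (⟨i, hi, rfl⟩ | ⟨l, hl, rfl⟩)
        · rw [← hi, hp i]
          exact (hnb_adj i).symm
        · exact (hu_adj k l).mpr hl
    have h3 : (T.G.neighborSet (u k)).ncard = 3 := by
      rcases T.degree_eq (u k) with h | h
      · exact absurd h (hu_int k)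
      · exact h
    rw [hset, Set.ncard_coe_finset, card_union_of_disjoint, card_image_of_injective _ hu_inj,
      card_image_of_injective _ T.leaf_injective] at h3
    · have e : ∀ k : Fin 5, (univ.filter (fun l : Fin 5 =>
          k.val + 1 = l.val ∨ l.val + 1 = k.val)).card =
            if k.val = 0 ∨ k.val = 4 then 1 else 2 := by decide
      rw [e k] at h3
      split_ifs at h3 ⊢ <;> omega
    · rw [disjoint_left]
      intro v hv hv'
      simp only [mem_image] at hv hv'
      obtain ⟨i, _, rfl⟩ := hv
      obtain ⟨l, _, hl⟩ := hv'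
      exact hne i l hl.symm

end SLTree

end Pool.Agent.Lib.MP_6c0529_co
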