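import Mathlib

set_option autoImplicit false

namespace Pool.Agent.Lib.MP_6c0529_co

/-- A semilabeled binary tree of size `n` (`n ≥ 2`): a finite tree `G` in which every vertex has
degree `1` or `3` and whose degree-`1` vertices (the leaves) are labelled bijectively by `Fin n`. -/
structure SLTree (n : ℕ) where
  /-- the vertex type -/
  V : Type
  /-- finitely many vertices -/
  finite_V : Finite V
  /-- the underlying graph -/
  G : SimpleGraph V
  /-- the graph is a tree -/
  isTree : G.IsTree
  /-- every vertex has degree `1` or `3` -/
  degree_eq : ∀ v, (G.neighborSet v).ncard = 1 ∨ (G.neighborSet v).ncard = 3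
  /-- the leaf with a given label -/
  leaf : Fin n → V
  /-- different labels sit on different leaves -/
  leaf_injective : Function.Injective leaf
  /-- exactly the vertices of degree `1` are labelled -/
  range_leaf : Set.range leaf = {v | (G.neighborSet v).ncard = 1}

namespace SLTree

variable {n : ℕ}

/-- The partition (equivalence relation) of the label set induced by deleting the edge set `E`:
two labels are equivalent iff their leaves lie in the same connected component. -/
def induced (T : SLTree n) (E : Set (Sym2 T.V)) : Setoid (Fin n) where
  r i j := (T.G.deleteEdges E).Reachable (T.leaf i) (T.leaf j)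
  iseqv := ⟨fun _ => SimpleGraph.Reachable.refl _, fun h => h.symm, fun h h' => h.trans h'⟩

/-- The set `𝔓(T)` of all partitions of the label set induced by deleting sets of edges of `T`. -/
def parts (T : SLTree n) : Set (Setoid (Fin n)) :=
  {r | ∃ E : Set (Sym2 T.V), E ⊆ T.G.edgeSet ∧ r = T.induced E}

/-- `T` is a caterpillar: deleting all leaves (and their incident edges) leaves a path. -/
def IsCaterpillar (T : SLTree n) : Prop :=
  ∃ m : ℕ, Nonempty (T.G.induce {v | (T.G.neighborSet v).ncard ≠ 1} ≃g SimpleGraph.pathGraph m)

end SLTree

/-- `s n` is the minimum of `|𝔓(T) ∩ 𝔓(F)|` over all pairs of semilabeled binary trees of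
size `n`. -/
noncomputable def s (n : ℕ) : ℕ :=
  sInf {k | ∃ T F : SLTree n, k = (T.parts ∩ F.parts).ncard}

/-- `c n` is the minimum of `|𝔓(T) ∩ 𝔓(F)|` over all pairs of caterpillars of size `n`. -/
noncomputable def c (n : ℕ) : ℕ :=
  sInf {k | ∃ T F : SLTree n, T.IsCaterpillar ∧ F.IsCaterpillar ∧ k = (T.parts ∩ F.parts).ncard}

end Pool.Agent.Lib.MP_6c0529_co
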