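import Pool.Agent.Lib.MP_6c0529_co.LowerBound

set_option autoImplicit false

namespace Pool.Agent.Lib.MP_6c0529_co

open Finset SLTree

/-- The graph on `Fin 12` in which `v` is joined to its parent `p v`. -/
def pgraph (p : ℕ → ℕ) : SimpleGraph (Fin 12) where
  Adj v w := v ≠ w ∧ (p v.val = w.val ∨ p w.val = v.val)
  symm := ⟨fun _ _ h => ⟨h.1.symm, h.2.symm⟩⟩
  loopless := ⟨fun _ h => h.1 rfl⟩

instance (p : ℕ → ℕ) : DecidableRel (pgraph p).Adj := fun v w => by
  unfold pgraph; infer_instance

lemma pgraph_adj (p : ℕ → ℕ) (v w : Fin 12) :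
    (pgraph p).Adj v w ↔ v ≠ w ∧ (p v.val = w.val ∨ p w.val = v.val) := Iff.rfl

lemma pgraph_connected (p : ℕ → ℕ) (hp : ∀ v, 0 < v → v < 12 → p v < v) :
    (pgraph p).Connected := by
  have h0 : ∀ (n : ℕ) (hn : n < 12), (pgraph p).Reachable ⟨n, hn⟩ 0 := by
    intro n
    induction n using Nat.strong_induction_on with
    | _ n ih =>
      intro hn
      rcases Nat.eq_zero_or_pos n with h | h
      · subst h; exact SimpleGraph.Reachable.refl _
      · have h1 := hp n h hn
        have h2 := ih (p n) h1 (by omega)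
        have h3 : (pgraph p).Adj ⟨n, hn⟩ ⟨p n, by omega⟩ := by
          refine ⟨fun e => ?_, Or.inl rfl⟩
          have := congrArg Fin.val e
          simp only at this
          omega
        exact h3.reachable.trans h2
  have : Nonempty (Fin 12) := ⟨0⟩
  exact ⟨fun v w => (h0 v.val v.isLt).trans (h0 w.val w.isLt).symm⟩

/-- The topmost vertex of the component of `v` when the edge from `v` to its parent is cut
iff bit `v` of `m` is set. -/
def top (p : ℕ → ℕ) (m : ℕ) : ℕ → ℕ → ℕ
  | 0, v => v
  | k + 1, v => if v = 0 ∨ m.testBit v = true then v else top p m k (p v)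

lemma top_succ (p : ℕ → ℕ) (hp : ∀ v, 0 < v → v < 12 → p v < v) (m : ℕ) (k v : ℕ)
    (hv : v ≤ k) (hv2 : v < 12) : top p m (k + 1) v = top p m k v := by
  induction k generalizing v with
  | zero =>
    have : v = 0 := by omega
    subst this
    simp [top]
  | succ k ih =>
    rw [top]
    conv_rhs => rw [top]
    split_ifs with h
    · rfl
    · push Not at h
      have h1 := hp v (Nat.pos_of_ne_zero h.1) hv2
      exact ih (p v) (by omega) (by omega)

lemma exists_bits (e : Fin 12 → Prop) : ∃ m < 4096, ∀ v : Fin 12, m.testBit v.val = true ↔ e v := by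
  classical
  refine ⟨Nat.ofBits (fun v : Fin 12 => decide (e v)), ?_, ?_⟩
  · exact Nat.ofBits_lt_two_pow _
  · intro v
    rw [Nat.testBit_ofBits_lt _ _ v.isLt]
    simp

/-- The partition induced by deleting edges is the kernel of `top` for some choice of bits. -/
lemma reachable_eq_top (p : ℕ → ℕ) (hp0 : p 0 = 0) (hp : ∀ v, 0 < v → v < 12 → p v < v)
    (E : Set (Sym2 (Fin 12))) :
    ∃ m < 4096, ∀ v w : Fin 12, ((pgraph p).deleteEdges E).Reachable v w ↔
      top p m 12 v.val = top p m 12 w.val := by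
  classical
  have hpv : ∀ v : Fin 12, 0 < v.val → p v.val < 12 := fun v h =>
    lt_trans (hp v.val h v.isLt) v.isLt
  obtain ⟨m, hm, hbit⟩ := exists_bits (fun v => ∀ h : p v.val < 12,
    ¬ ((pgraph p).deleteEdges E).Reachable v ⟨p v.val, h⟩)
  refine ⟨m, hm, ?_⟩
  -- every vertex reaches its top
  have htop : ∀ (k n : ℕ) (hn : n < 12), ∃ ht : top p m k n < 12,
      ((pgraph p).deleteEdges E).Reachable ⟨n, hn⟩ ⟨top p m k n, ht⟩ := by
    intro k
    induction k with
    | zero => intro n hn; exact ⟨hn, SimpleGraph.Reachable.refl _⟩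
    | succ k ih =>
      intro n hn
      by_cases h : n = 0 ∨ m.testBit n = true
      · have e : top p m (k + 1) n = n := by rw [top, if_pos h]
        have ht : top p m (k + 1) n < 12 := by rw [e]; exact hn
        refine ⟨ht, ?_⟩
        have : (⟨n, hn⟩ : Fin 12) = ⟨top p m (k + 1) n, ht⟩ := Fin.ext e.symm
        rw [← this]
      · have e : top p m (k + 1) n = top p m k (p n) := by rw [top, if_neg h]
        push Not at h
        have h1 := hp n (Nat.pos_of_ne_zero h.1) hn
        obtain ⟨ht, hr⟩ := ih (p n) (by omega)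
        refine ⟨by rw [e]; exact ht, ?_⟩
        have h2 : ¬ (∀ h : p n < 12,
            ¬ ((pgraph p).deleteEdges E).Reachable ⟨n, hn⟩ ⟨p n, h⟩) := by
          rw [← hbit ⟨n, hn⟩]; exact h.2
        push Not at h2
        obtain ⟨h3, h4⟩ := h2
        have h5 := h4.trans hr
        have e2 : (⟨top p m (k + 1) n, by rw [e]; exact ht⟩ : Fin 12) = ⟨top p m k (p n), ht⟩ :=
          Fin.ext e
        rw [e2]
        exact h5
  -- `top` is constant along the remaining edges
  have hadj : ∀ v w : Fin 12, p v.val = w.val → v ≠ w →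
      ((pgraph p).deleteEdges E).Reachable v w → top p m 12 v.val = top p m 12 w.val := by
    intro v w hpw hvw hr
    by_cases hv0 : v.val = 0
    · exfalso
      apply hvw
      apply Fin.ext
      rw [← hpw, hv0, hp0]
    · have hb : ¬ (m.testBit v.val = true) := by
        rw [hbit v]
        push Not
        refine ⟨by rw [hpw]; exact w.isLt, ?_⟩
        have : (⟨p v.val, by rw [hpw]; exact w.isLt⟩ : Fin 12) = w := Fin.ext hpw
        rw [this]
        exact hr
      have h1 : top p m 12 v.val = top p m 11 (p v.val) := by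
        rw [top, if_neg (by push Not; exact ⟨hv0, by simpa using hb⟩)]
      rw [h1, hpw]
      have h2 := hp v.val (by omega) v.isLt
      have h3 := v.isLt
      exact (top_succ p hp m 11 w.val (by omega) w.isLt).symm
  intro v w
  constructor
  · rintro ⟨q⟩
    induction q with
    | nil => rfl
    | @cons a b c h _ ih =>
      have hr : ((pgraph p).deleteEdges E).Reachable a b := h.reachable
      have h1 : (pgraph p).Adj a b := ((pgraph p).deleteEdges_adj.mp h).1
      rcases h1 with ⟨hne, h1 | h1⟩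
      · exact (hadj a b h1 hne hr).trans ih
      · exact (hadj b a h1 hne.symm hr.symm).symm.trans ih
  · intro h
    obtain ⟨t1, r1⟩ := htop 12 v.val v.isLt
    obtain ⟨t2, r2⟩ := htop 12 w.val w.isLt
    have e : (⟨top p m 12 v.val, t1⟩ : Fin 12) = ⟨top p m 12 w.val, t2⟩ := Fin.ext h
    rw [e] at r1
    exact r1.trans r2.symm

/-- Parent function of the caterpillar. -/
def pT (v : ℕ) : ℕ := [0, 0, 1, 2, 3, 0, 0, 1, 2, 3, 4, 4].getD v 0

/-- Parent function of the second tree, which is not a caterpillar. -/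
def pF (v : ℕ) : ℕ := [0, 0, 0, 0, 3, 1, 4, 2, 3, 1, 4, 2].getD v 0

lemma pT_lt : ∀ v, 0 < v → v < 12 → pT v < v := by
  intro v h1 h2
  interval_cases v <;> decide

lemma pF_lt : ∀ v, 0 < v → v < 12 → pF v < v := by
  intro v h1 h2
  interval_cases v <;> decide

/-- The leaf `i` is the vertex `5 + i`. -/
def lf (i : Fin 7) : Fin 12 := ⟨5 + i.val, by omega⟩

lemma lf_injective : Function.Injective lf := by
  intro i j h
  have := congrArg Fin.val h
  simp only [lf] at this
  exact Fin.ext (by omega)

lemma ncard_nbr (p : ℕ → ℕ) (v : Fin 12) :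
    ((pgraph p).neighborSet v).ncard = (univ.filter (fun w => (pgraph p).Adj v w)).card := by
  rw [← Set.ncard_coe_finset]
  congr 1
  ext w
  simp

lemma isTree_of (p : ℕ → ℕ) (hp : ∀ v, 0 < v → v < 12 → p v < v)
    (hc : (pgraph p).edgeFinset.card = 11) : (pgraph p).IsTree := by
  rw [SimpleGraph.isTree_iff_connected_and_card]
  refine ⟨pgraph_connected p hp, ?_⟩
  rw [Nat.card_eq_fintype_card, Nat.card_eq_fintype_card, ← SimpleGraph.edgeFinset_card, hc]
  rfl

lemma edges_T : (pgraph pT).edgeFinset.card = 11 := by decide +kernel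
lemma edges_F : (pgraph pF).edgeFinset.card = 11 := by decide +kernel

lemma deg_T : ∀ v : Fin 12, (univ.filter (fun w => (pgraph pT).Adj v w)).card =
    if v.val < 5 then 3 else 1 := by decide +kernel
lemma deg_F : ∀ v : Fin 12, (univ.filter (fun w => (pgraph pF).Adj v w)).card =
    if v.val < 5 then 3 else 1 := by decide +kernel

/-- The tree with parent function `p`. -/
def mk (p : ℕ → ℕ) (hp : ∀ v, 0 < v → v < 12 → p v < v)
    (hc : (pgraph p).edgeFinset.card = 11)
    (hd : ∀ v : Fin 12, (univ.filter (fun w => (pgraph p).Adj v w)).card =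
      if v.val < 5 then 3 else 1) : SLTree 7 where
  V := Fin 12
  finite_V := inferInstance
  G := pgraph p
  isTree := isTree_of p hp hc
  degree_eq := by
    intro v
    rw [ncard_nbr, hd v]
    split_ifs <;> simp
  leaf := lf
  leaf_injective := lf_injective
  range_leaf := by
    ext v
    rw [Set.mem_range, Set.mem_ofPred_eq, ncard_nbr, hd v]
    constructor
    · rintro ⟨i, rfl⟩
      simp [lf]
    · intro h
      have h5 : 5 ≤ v.val := by
        by_contra h5
        rw [if_pos (by omega)] at h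
        omega
      have := v.isLt
      exact ⟨⟨v.val - 5, by omega⟩, Fin.ext (by simp only [lf]; omega)⟩

/-- The caterpillar. -/
def T0 : SLTree 7 := mk pT pT_lt edges_T deg_T

/-- The other tree. -/
def F0 : SLTree 7 := mk pF pF_lt edges_F deg_F

lemma pT_caterpillar : Nonempty ((pgraph pT).induce {v | ((pgraph pT).neighborSet v).ncard ≠ 1} ≃g
    SimpleGraph.pathGraph 5) := by
  have hmem : ∀ v : Fin 12, v ∈ {v | ((pgraph pT).neighborSet v).ncard ≠ 1} ↔ v.val < 5 := by
    intro v
    rw [Set.mem_ofPred_eq, ncard_nbr, deg_T v]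
    split_ifs with h <;> simp [h]
  refine ⟨
    { toFun := fun v => ⟨v.val.val, (hmem v.val).mp v.2⟩
      invFun := fun k => ⟨⟨k.val, by omega⟩, (hmem _).mpr k.isLt⟩
      left_inv := fun v => rfl
      right_inv := fun k => rfl
      map_rel_iff' := ?_ }⟩
  rintro ⟨v, hv⟩ ⟨w, hw⟩
  have hv' := (hmem v).mp hv
  have hw' := (hmem w).mp hw
  have key : ∀ a b : Fin 12, a.val < 5 → b.val < 5 → ((a.val + 1 = b.val ∨ b.val + 1 = a.val) ↔
      (a ≠ b ∧ (pT a.val = b.val ∨ pT b.val = a.val))) := by decide +kernel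
  have h1 : (SimpleGraph.pathGraph 5).Adj ⟨v.val, hv'⟩ ⟨w.val, hw'⟩ ↔ (pgraph pT).Adj v w := by
    rw [SimpleGraph.pathGraph_adj, pgraph_adj]
    exact key v w hv' hw'
  exact h1

lemma T0_caterpillar : T0.IsCaterpillar := ⟨5, pT_caterpillar⟩

/-- Partitions of a tree given by a parent function. -/
lemma parts_mk {p : ℕ → ℕ} (hp0 : p 0 = 0) {hp : ∀ v, 0 < v → v < 12 → p v < v}
    {hc : (pgraph p).edgeFinset.card = 11}
    {hd : ∀ v : Fin 12, (univ.filter (fun w => (pgraph p).Adj v w)).card =
      if v.val < 5 then 3 else 1} {r : Setoid (Fin 7)} (hr : r ∈ (mk p hp hc hd).parts) :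
    ∃ m < 4096, ∀ i j : Fin 7, r i j ↔ top p m 12 (5 + i.val) = top p m 12 (5 + j.val) := by
  obtain ⟨E, _, rfl⟩ := hr
  obtain ⟨m, hm, h⟩ := reachable_eq_top p hp0 hp E
  exact ⟨m, hm, fun i j => h (lf i) (lf j)⟩

end Pool.Agent.Lib.MP_6c0529_co
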