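import Pool.Agent.Lib.MP_6c0529_co.Caterpillar

set_option autoImplicit false

namespace Pool.Agent.Lib.MP_6c0529_co

open Finset SLTree

/-! ### Partitions with at most one nontrivial class -/

/-- At most one class of the partition has more than one element. -/
def OneClass (r : Setoid (Fin 7)) : Prop :=
  ∀ i j k l, r i j → i ≠ j → r k l → k ≠ l → r i k

/-- The partition whose only possibly nontrivial class is `A`. -/
noncomputable def one (A : Finset (Fin 7)) : Setoid (Fin 7) := Setoid.ker (lab A.toList [])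

lemma one_rel (A : Finset (Fin 7)) (i j : Fin 7) : one A i j ↔ i = j ∨ (i ∈ A ∧ j ∈ A) := by
  change lab A.toList [] i = lab A.toList [] j ↔ _
  unfold lab
  have hi := i.isLt
  have hj := j.isLt
  simp only [mem_toList, List.not_mem_nil, if_false]
  split_ifs with h1 h2 h2
  · simp [h1, h2]
  · simp only [h1, h2, and_false, or_false]
    constructor
    · intro h; omega
    · rintro rfl; exact absurd h1 h2
  · simp only [h1, h2, false_and, or_false]
    constructor
    · intro h; omega
    · rintro rfl; exact absurd h2 h1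
  · simp only [h1, false_and, or_false]
    exact ⟨fun h => Fin.ext h, fun h => by rw [h]⟩

lemma one_injOn : Set.InjOn one {A | A.card ≠ 1} := by
  have key : ∀ A : Finset (Fin 7), A.card ≠ 1 → ∀ i, i ∈ A ↔ ∃ j, j ≠ i ∧ one A i j := by
    intro A hA i
    constructor
    · intro hi
      have h1 : 1 < A.card := by
        have : 0 < A.card := card_pos.mpr ⟨i, hi⟩
        omega
      obtain ⟨j, hj, hji⟩ := exists_mem_ne h1 i
      exact ⟨j, hji, (one_rel A i j).mpr (Or.inr ⟨hi, hj⟩)⟩
    · rintro ⟨j, hji, h⟩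
      rcases (one_rel A i j).mp h with h | h
      · exact absurd h.symm hji
      · exact h.1
  intro A hA B hB hAB
  ext i
  rw [key A hA i, key B hB i, hAB]

lemma oneClass_iff (r : Setoid (Fin 7)) : OneClass r ↔ ∃ A : Finset (Fin 7), A.card ≠ 1 ∧ r = one A := by
  classical
  constructor
  · intro h
    refine ⟨univ.filter (fun i => ∃ j, j ≠ i ∧ r i j), ?_, ?_⟩
    · intro hc
      obtain ⟨a, ha⟩ := card_eq_one.mp hc
      have h1 : a ∈ univ.filter (fun i => ∃ j, j ≠ i ∧ r i j) := by rw [ha]; simp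
      obtain ⟨_, j, hj, hr⟩ := mem_filter.mp h1
      have h2 : j ∈ univ.filter (fun i => ∃ j, j ≠ i ∧ r i j) :=
        mem_filter.mpr ⟨mem_univ _, a, hj.symm, r.symm hr⟩
      rw [ha, mem_singleton] at h2
      exact hj h2
    · ext i j
      rw [one_rel]
      simp only [mem_filter, mem_univ, true_and]
      constructor
      · intro hr
        by_cases hij : i = j
        · exact Or.inl hij
        · exact Or.inr ⟨⟨j, fun e => hij e.symm, hr⟩, ⟨i, hij, r.symm hr⟩⟩
      · rintro (rfl | ⟨⟨i', hi', h1⟩, ⟨j', hj', h2⟩⟩)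
        · exact r.refl _
        · exact h i i' j j' h1 hi'.symm h2 hj'.symm
  · rintro ⟨A, _, rfl⟩ i j k l h1 hij h2 hkl
    rw [one_rel] at h1 h2 ⊢
    rcases h1 with h1 | h1
    · exact absurd h1 hij
    · rcases h2 with h2 | h2
      · exact absurd h2 hkl
      · exact Or.inr ⟨h1.1, h2.1⟩

lemma ncard_oneClass : {r | OneClass r}.ncard = 121 := by
  have h : {r | OneClass r} = one '' {A | A.card ≠ 1} := by
    ext r
    rw [Set.mem_ofPred_eq, oneClass_iff]
    constructor
    · rintro ⟨A, hA, rfl⟩; exact ⟨A, hA, rfl⟩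
    · rintro ⟨A, hA, rfl⟩; exact ⟨A, hA, rfl⟩
  rw [h, Set.ncard_image_of_injOn one_injOn]
  have h2 : {A : Finset (Fin 7) | A.card ≠ 1} = (univ.filter (fun A : Finset (Fin 7) => A.card ≠ 1) :
      Finset (Finset (Fin 7))) := by
    ext A; simp
  rw [h2, Set.ncard_coe_finset]
  decide +kernel

lemma oneClass_mem_parts {T : SLTree 7} {p : Fin 7 → Fin 5} (h : T.Spine p)
    {r : Setoid (Fin 7)} (hr : OneClass r) : r ∈ T.parts := by
  obtain ⟨A, _, rfl⟩ := (oneClass_iff r).mp hr
  refine h.ker_mem A.toList [] 4 ?_ (by simp)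
  intro a _
  have := (p a).isLt
  omega

/-! ### Candidate partitions with exactly two nontrivial classes -/

/-- The standard positions. -/
def pos0 : Fin 7 → Fin 5 := ![0, 0, 1, 2, 3, 4, 4]

/-- `A` lies entirely before `B` or entirely after `B`. -/
def sep (p : Fin 7 → Fin 5) (P : List (Fin 7) × List (Fin 7)) : Bool :=
  (P.1.all fun a => P.2.all fun b => decide ((p a).val < (p b).val)) ||
    (P.1.all fun a => P.2.all fun b => decide ((p b).val < (p a).val))

lemma lab_swap_ker (A B : List (Fin 7)) (hdisj : ∀ a ∈ A, a ∉ B) :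
    Setoid.ker (lab A B) = Setoid.ker (lab B A) := by
  ext i j
  change lab A B i = lab A B j ↔ lab B A i = lab B A j
  unfold lab
  have hi := i.isLt
  have hj := j.isLt
  have h1 := hdisj i
  have h2 := hdisj j
  by_cases a : i ∈ A <;> by_cases b : i ∈ B <;> by_cases c : j ∈ A <;> by_cases d : j ∈ B <;>
    simp [a, b, c, d] at * <;> omega

lemma sep_mem {T : SLTree 7} {p : Fin 7 → Fin 5} (h : T.Spine p)
    (A B : List (Fin 7)) (hA : A ≠ []) (hB : B ≠ []) (hs : sep p (A, B) = true) :
    Setoid.ker (lab A B) ∈ T.parts := by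
  have main : ∀ A B : List (Fin 7), A ≠ [] →
      (∀ a ∈ A, ∀ b ∈ B, (p a).val < (p b).val) → Setoid.ker (lab A B) ∈ T.parts := by
    intro A B hA h1
    -- threshold: the maximum of `p` over `A`
    obtain ⟨a0, ha0, hmax⟩ : ∃ a0 ∈ A, ∀ a ∈ A, (p a).val ≤ (p a0).val := by
      have := Finset.exists_max_image A.toFinset (fun a => (p a).val)
        (by rw [List.toFinset_nonempty_iff]; exact hA)
      simpa using this
    exact h.ker_mem A B (p a0).val hmax (fun b hb => h1 a0 ha0 b hb)
  unfold sep at hs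
  simp only [Bool.or_eq_true, List.all_eq_true, decide_eq_true_eq] at hs
  rcases hs with hs | hs
  · exact main A B hA hs
  · have hd : ∀ a ∈ A, a ∉ B := fun a ha hb => lt_irrefl _ (hs a ha a hb)
    rw [lab_swap_ker A B hd]
    exact main B A hB (fun b hb a ha => hs a ha b hb)

/-- The quartets and the `2+3` partitions displayed by the standard caterpillar. -/
def cand : List (List (Fin 7) × List (Fin 7)) :=
  [([0,1],[2,3]), ([0,1],[2,4]), ([0,1],[2,5]), ([0,1],[2,6]), ([0,1],[3,4]), ([0,1],[3,5]),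
   ([0,1],[3,6]), ([0,1],[4,5]), ([0,1],[4,6]), ([0,1],[5,6]), ([0,2],[3,4]), ([0,2],[3,5]),
   ([0,2],[3,6]), ([0,2],[4,5]), ([0,2],[4,6]), ([0,2],[5,6]), ([0,3],[4,5]), ([0,3],[4,6]),
   ([0,3],[5,6]), ([0,4],[5,6]), ([1,2],[3,4]), ([1,2],[3,5]), ([1,2],[3,6]), ([1,2],[4,5]),
   ([1,2],[4,6]), ([1,2],[5,6]), ([1,3],[4,5]), ([1,3],[4,6]), ([1,3],[5,6]), ([1,4],[5,6]),
   ([2,3],[4,5]), ([2,3],[4,6]), ([2,3],[5,6]), ([2,4],[5,6]), ([3,4],[5,6]),
   ([0,1],[2,3,4]), ([0,1],[2,3,5]), ([0,1],[2,3,6]), ([0,1],[2,4,5]), ([0,1],[2,4,6]),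
   ([0,1],[2,5,6]), ([0,1],[3,4,5]), ([0,1],[3,4,6]), ([0,1],[3,5,6]), ([0,1],[4,5,6]),
   ([0,2],[3,4,5]), ([0,2],[3,4,6]), ([0,2],[3,5,6]), ([0,2],[4,5,6]), ([0,3],[4,5,6]),
   ([1,2],[3,4,5]), ([1,2],[3,4,6]), ([1,2],[3,5,6]), ([1,2],[4,5,6]), ([1,3],[4,5,6]),
   ([2,3],[4,5,6]),
   ([0,1,2],[3,4]), ([0,1,2],[3,5]), ([0,1,2],[3,6]), ([0,1,2],[4,5]), ([0,1,2],[4,6]),
   ([0,1,2],[5,6]), ([0,1,3],[4,5]), ([0,1,3],[4,6]), ([0,1,3],[5,6]), ([0,1,4],[5,6]),
   ([0,2,3],[4,5]), ([0,2,3],[4,6]), ([0,2,3],[5,6]), ([0,2,4],[5,6]), ([0,3,4],[5,6]),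
   ([1,2,3],[4,5]), ([1,2,3],[4,6]), ([1,2,3],[5,6]), ([1,2,4],[5,6]), ([1,3,4],[5,6]),
   ([2,3,4],[5,6])]

/-- Do at least `k` members of the list satisfy `f`? -/
def atLeast {α : Type} (f : α → Bool) : ℕ → List α → Bool
  | 0, _ => true
  | _ + 1, [] => false
  | k + 1, x :: xs => if f x then atLeast f k xs else atLeast f (k + 1) xs

lemma le_length_of_atLeast {α : Type} (f : α → Bool) (k : ℕ) (l : List α)
    (h : atLeast f k l = true) : k ≤ (l.filter f).length := by
  induction l generalizing k with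
  | nil =>
    cases k with
    | zero => simp
    | succ k => simp [atLeast] at h
  | cons x xs ih =>
    cases k with
    | zero => simp
    | succ k =>
      unfold atLeast at h
      by_cases hx : f x = true
      · rw [if_pos hx] at h
        rw [List.filter_cons_of_pos hx, List.length_cons]
        exact Nat.succ_le_succ (ih k h)
      · rw [if_neg hx] at h
        rw [List.filter_cons_of_neg hx]
        exact ih (k + 1) h

/-- Enumerate all lists with prescribed numbers of occurrences and check them. -/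
def go (chk : List (Fin 5) → Bool) : ℕ → (Fin 5 → ℕ) → List (Fin 5) → Bool
  | 0, _, acc => chk acc
  | k + 1, cc, acc => (List.finRange 5).all fun j =>
      cc j == 0 || go chk k (fun i => if i = j then cc i - 1 else cc i) (j :: acc)

lemma go_sound (chk : List (Fin 5) → Bool) (k : ℕ) (cc : Fin 5 → ℕ) (acc : List (Fin 5))
    (h : go chk k cc acc = true) (l : List (Fin 5)) (hl : l.length = k)
    (hc : ∀ j, l.count j = cc j) : chk (l.reverse ++ acc) = true := by
  induction k generalizing cc acc l with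
  | zero =>
    rw [List.length_eq_zero_iff] at hl
    subst hl
    simpa [go] using h
  | succ k ih =>
    obtain ⟨j, l', rfl⟩ : ∃ j l', l = j :: l' := by
      cases l with
      | nil => simp at hl
      | cons j l' => exact ⟨j, l', rfl⟩
    unfold go at h
    rw [List.all_eq_true] at h
    have h1 := h j (List.mem_finRange j)
    have hj : cc j ≠ 0 := by
      rw [← hc j, List.count_cons_self]; omega
    simp only [Bool.or_eq_true, beq_iff_eq, hj, false_or] at h1
    have h2 := ih _ _ h1 l' (by simpa using hl) (by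
      intro i
      have := hc i
      rw [List.count_cons] at this
      by_cases hij : i = j
      · subst hij
        simp at this ⊢
        omega
      · rw [if_neg hij, ← this]
        simp [Ne.symm hij])
    simpa using h2

/-- The check for one list of positions (in reversed order). -/
def chk (l : List (Fin 5)) : Bool :=
  atLeast (fun P => sep (fun i => l.getD (6 - i.val) 0) P) 5 cand

set_option maxRecDepth 100000 in
lemma go_chk : go chk 7 ![2, 1, 1, 1, 2] [] = true := by decide +kernel

lemma cand_count (p : Fin 7 → Fin 5) (hp : ∀ k : Fin 5,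
      (univ.filter (fun i => p i = k)).card = (if k.val = 0 ∨ k.val = 4 then 2 else 1)) :
    5 ≤ (cand.filter (sep p)).length := by
  have h := go_sound chk 7 ![2, 1, 1, 1, 2] [] go_chk (List.ofFn p) (by simp) (by
    intro j
    have h1 : (List.ofFn p).count j = (univ.filter (fun i => p i = j)).card := by
      rw [card_filter, Fin.sum_univ_seven]
      simp only [List.ofFn_succ, List.ofFn_zero, List.count_cons, List.count_nil, beq_iff_eq]
      simp [Fin.succ]
      ring
    rw [h1, hp j]
    fin_cases j <;> rfl)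
  rw [List.append_nil] at h
  have e : (fun i : Fin 7 => (List.ofFn p).reverse.getD (6 - i.val) 0) = p := by
    funext i
    fin_cases i <;> simp [List.ofFn_succ]
  unfold chk at h
  have h2 := le_length_of_atLeast _ _ _ h
  have e2 : (fun P => sep (fun i : Fin 7 => (List.ofFn p).reverse.getD (6 - i.val) 0) P) = sep p := by
    rw [e]
  rwa [e2] at h2

end Pool.Agent.Lib.MP_6c0529_co
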