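import Pool.Agent.Lib.MP_6c0529_co.Lower

set_option autoImplicit false

namespace Pool.Agent.Lib.MP_6c0529_co

open Finset SLTree

/-- All pairs `i < j`. -/
def pairs : List (Fin 7 × Fin 7) :=
  (List.finRange 7).flatMap fun i => ((List.finRange 7).filter fun j => decide (i < j)).map fun j =>
    (i, j)

/-- A code of the partition of a candidate. -/
def key (P : List (Fin 7) × List (Fin 7)) : List Bool :=
  pairs.map fun q => decide (lab P.1 P.2 q.1 = lab P.1 P.2 q.2)

lemma key_eq {P Q : List (Fin 7) × List (Fin 7)}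
    (h : Setoid.ker (lab P.1 P.2) = Setoid.ker (lab Q.1 Q.2)) : key P = key Q := by
  unfold key
  apply List.map_congr_left
  intro q _
  have : (lab P.1 P.2 q.1 = lab P.1 P.2 q.2) ↔ (lab Q.1 Q.2 q.1 = lab Q.1 Q.2 q.2) := by
    have := congrArg (fun t : Setoid (Fin 7) => t.r q.1 q.2) h
    exact iff_of_eq this
  simp only [this]

lemma cand_key_nodup : (cand.map key).Nodup := by decide +kernel

lemma cand_ne_nil : ∀ P ∈ cand, P.1 ≠ [] ∧ P.2 ≠ [] := by decide +kernel

/-- All candidates are displayed by the standard caterpillar. -/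
lemma cand_sep : ∀ P ∈ cand, sep pos0 P = true := by decide +kernel

/-- No candidate partition has at most one nontrivial class. -/
lemma cand_wit : ∀ P ∈ cand, ∃ i j k l : Fin 7, lab P.1 P.2 i = lab P.1 P.2 j ∧ i ≠ j ∧
    lab P.1 P.2 k = lab P.1 P.2 l ∧ k ≠ l ∧ lab P.1 P.2 i ≠ lab P.1 P.2 k := by
  intro P hP
  have h : ∀ P ∈ cand, ∃ a b c d : Fin 7, P.1.head? = some a ∧ P.1.tail.head? = some b ∧
      P.2.head? = some c ∧ P.2.tail.head? = some d ∧
      (lab P.1 P.2 a = lab P.1 P.2 b ∧ a ≠ b ∧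
    lab P.1 P.2 c = lab P.1 P.2 d ∧ c ≠ d ∧ lab P.1 P.2 a ≠ lab P.1 P.2 c) := by
    have h0 : cand.all (fun P => match P.1.head?, P.1.tail.head?, P.2.head?, P.2.tail.head? with
      | some a, some b, some c, some d => decide (lab P.1 P.2 a = lab P.1 P.2 b ∧ a ≠ b ∧
          lab P.1 P.2 c = lab P.1 P.2 d ∧ c ≠ d ∧ lab P.1 P.2 a ≠ lab P.1 P.2 c)
      | _, _, _, _ => false) = true := by decide +kernel
    intro P hP
    have h1 := List.all_eq_true.mp h0 P hP
    split at h1
    · rename_i a b c d h2 h3 h4 h5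
      exact ⟨a, b, c, d, h2, h3, h4, h5, of_decide_eq_true h1⟩
    · exact absurd h1 (by simp)
  obtain ⟨a, b, c, d, _, _, _, _, h5⟩ := h P hP
  exact ⟨a, b, c, d, h5⟩

lemma finite_setoid : Finite (Setoid (Fin 7)) := by
  have : Function.Injective (fun (r : Setoid (Fin 7)) (i j : Fin 7) => r i j) := by
    intro r s h
    ext i j
    exact iff_of_eq (congrFun (congrFun h i) j)
  exact Finite.of_injective _ this

/-- The lower bound when the first caterpillar is in standard position. -/
lemma lower_std {T F : SLTree 7} (hT : T.Spine pos0) {p : Fin 7 → Fin 5} (hF : F.Spine p)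
    (hp : ∀ k : Fin 5,
      (univ.filter (fun i => p i = k)).card = (if k.val = 0 ∨ k.val = 4 then 2 else 1)) :
    126 ≤ (T.parts ∩ F.parts).ncard := by
  classical
  have := finite_setoid
  have h5 := cand_count p hp
  set L := cand.filter (sep p) with hL
  have hLc : ∀ P ∈ L, P ∈ cand ∧ sep p P = true := fun P hP => List.mem_filter.mp hP
  let Φ : List (Fin 7) × List (Fin 7) → Setoid (Fin 7) := fun P => Setoid.ker (lab P.1 P.2)
  -- the candidates give distinct partitions
  have hnd : (L.map Φ).Nodup := by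
    have h1 : (L.map key).Nodup := by
      apply List.Nodup.sublist _ cand_key_nodup
      exact (List.filter_sublist).map key
    rw [List.nodup_map_iff_inj_on (by
      exact List.Nodup.of_map key h1)]
    intro P hP Q hQ h
    exact List.inj_on_of_nodup_map h1 hP hQ (key_eq h)
  have hsub2 : ∀ r ∈ L.map Φ, r ∈ T.parts ∩ F.parts ∧ ¬ OneClass r := by
    intro r hr
    obtain ⟨P, hP, rfl⟩ := List.mem_map.mp hr
    obtain ⟨hPc, hPs⟩ := hLc P hP
    obtain ⟨hn1, hn2⟩ := cand_ne_nil P hPc
    refine ⟨⟨sep_mem hT P.1 P.2 hn1 hn2 (cand_sep P hPc), sep_mem hF P.1 P.2 hn1 hn2 hPs⟩, ?_⟩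
    intro ho
    obtain ⟨i, j, k, l, h1, h2, h3, h4, h5⟩ := cand_wit P hPc
    exact h5 (ho i j k l h1 h2 h3 h4)
  let S2 : Set (Setoid (Fin 7)) := {r | r ∈ L.map Φ}
  have hS2 : S2.ncard = L.length := by
    have : S2 = ((L.map Φ).toFinset : Set (Setoid (Fin 7))) := by
      ext r; simp [S2]
    rw [this, Set.ncard_coe_finset, List.toFinset_card_of_nodup hnd, List.length_map]
  have hdisj : Disjoint {r : Setoid (Fin 7) | OneClass r} S2 := by
    rw [Set.disjoint_left]
    intro r hr hr2
    exact (hsub2 r hr2).2 hr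
  have hsub : {r : Setoid (Fin 7) | OneClass r} ∪ S2 ⊆ T.parts ∩ F.parts := by
    rintro r (hr | hr)
    · exact ⟨oneClass_mem_parts hT hr, oneClass_mem_parts hF hr⟩
    · exact (hsub2 r hr).1
  have hfin : (T.parts ∩ F.parts).Finite := Set.toFinite _
  have := Set.ncard_le_ncard hsub hfin
  rw [Set.ncard_union_eq hdisj (Set.toFinite _) (Set.toFinite _), ncard_oneClass, hS2] at this
  omega

lemma pos0_card : ∀ k : Fin 5,
    (univ.filter (fun i => pos0 i = k)).card = (if k.val = 0 ∨ k.val = 4 then 2 else 1) := by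
  decide

/-- Any two caterpillars of size `7` share at least `126` partitions. -/
theorem lower {T F : SLTree 7} (hT : T.IsCaterpillar) (hF : F.IsCaterpillar) :
    126 ≤ (T.parts ∩ F.parts).ncard := by
  classical
  obtain ⟨p, hTp, hpc⟩ := hT.exists_spine
  obtain ⟨q, hFq, hqc⟩ := hF.exists_spine
  -- relabel so that the first is in standard position
  have hfib : ∀ k : Fin 5, Nonempty ({i : Fin 7 // pos0 i = k} ≃ {i : Fin 7 // p i = k}) := by
    intro k
    refine ⟨Fintype.equivOfCardEq ?_⟩
    rw [Fintype.card_subtype, Fintype.card_subtype, pos0_card k, hpc k]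
  let σ : Equiv.Perm (Fin 7) := Equiv.ofFiberEquiv (fun k => (hfib k).some)
  have hσ : p ∘ σ = pos0 := by
    funext i
    exact Equiv.ofFiberEquiv_map _ i
  rw [← relabel_inter_ncard T F σ]
  have h1 : (T.relabel σ).Spine pos0 := by rw [← hσ]; exact hTp.relabel σ
  have h2 : (F.relabel σ).Spine (q ∘ σ) := hFq.relabel σ
  apply lower_std h1 h2
  intro k
  rw [← hqc k]
  apply card_bij (fun i _ => σ i)
  · intro i hi
    simpa using hi
  · intro i _ j _ h
    exact σ.injective h
  · intro j hj
    exact ⟨σ.symm j, by simpa using hj, by simp⟩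

end Pool.Agent.Lib.MP_6c0529_co
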