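import Pool.Agent.Lib.MP_6c0529_co.Explicit

set_option autoImplicit false

namespace Pool.Agent.Lib.MP_6c0529_co

open Finset SLTree

/-- Evaluate the argument before applying `f`. -/
def force (f : ℕ → Bool) : ℕ → Bool
  | 0 => f 0
  | n + 1 => f (Nat.succ n)

lemma force_eq (f : ℕ → Bool) (n : ℕ) : force f n = f n := by
  cases n <;> rfl

/-- Check a Boolean function on all numbers `m` with `m / 2 ^ k = acc`. -/
def allBits (f : ℕ → Bool) : ℕ → ℕ → Bool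
  | 0, acc => f acc
  | k + 1, acc => force (allBits f k) (2 * acc) && force (allBits f k) (2 * acc + 1)

lemma allBits_sound (f : ℕ → Bool) (k acc : ℕ) (h : allBits f k acc = true) (m : ℕ)
    (hm : m / 2 ^ k = acc) : f m = true := by
  induction k generalizing acc with
  | zero =>
    simp at hm
    subst hm
    exact h
  | succ k ih =>
    unfold allBits at h
    rw [Bool.and_eq_true, force_eq, force_eq] at h
    have e : m / 2 ^ (k + 1) = m / 2 ^ k / 2 := by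
      rw [pow_succ, Nat.div_div_eq_div_mul]
    rcases Nat.even_or_odd' (m / 2 ^ k) with ⟨c, hc | hc⟩
    · apply ih _ h.1
      omega
    · apply ih _ h.2
      omega

/-- Packed labels of the leaves (base `16`). -/
def pack (p : ℕ → ℕ) (m : ℕ) : ℕ :=
  top p m 12 5 + 16 * (top p m 12 6 + 16 * (top p m 12 7 + 16 * (top p m 12 8 +
    16 * (top p m 12 9 + 16 * (top p m 12 10 + 16 * top p m 12 11)))))

/-- The `i`-th hexadecimal digit. -/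
def dig (w i : ℕ) : ℕ := (w >>> (4 * i)) &&& 15

/-- All pairs of distinct labels `a < b`. -/
def prs : List (ℕ × ℕ) :=
  [(0,1),(0,2),(0,3),(0,4),(0,5),(0,6),(1,2),(1,3),(1,4),(1,5),(1,6),(2,3),(2,4),(2,5),(2,6),
   (3,4),(3,5),(3,6),(4,5),(4,6),(5,6)]

/-- All `105` splits `ab | cd` with `a < b`, `c < d`, `a < c`. -/
def spl : List (ℕ × ℕ × ℕ × ℕ) :=
  [(0,1,2,3), (0,1,2,4), (0,1,2,5), (0,1,2,6), (0,1,3,4), (0,1,3,5), (0,1,3,6), (0,1,4,5),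
   (0,1,4,6), (0,1,5,6), (0,2,1,3), (0,2,1,4), (0,2,1,5), (0,2,1,6), (0,2,3,4), (0,2,3,5),
   (0,2,3,6), (0,2,4,5), (0,2,4,6), (0,2,5,6), (0,3,1,2), (0,3,1,4), (0,3,1,5), (0,3,1,6),
   (0,3,2,4), (0,3,2,5), (0,3,2,6), (0,3,4,5), (0,3,4,6), (0,3,5,6), (0,4,1,2), (0,4,1,3),
   (0,4,1,5), (0,4,1,6), (0,4,2,3), (0,4,2,5), (0,4,2,6), (0,4,3,5), (0,4,3,6), (0,4,5,6),
   (0,5,1,2), (0,5,1,3), (0,5,1,4), (0,5,1,6), (0,5,2,3), (0,5,2,4), (0,5,2,6), (0,5,3,4),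
   (0,5,3,6), (0,5,4,6), (0,6,1,2), (0,6,1,3), (0,6,1,4), (0,6,1,5), (0,6,2,3), (0,6,2,4),
   (0,6,2,5), (0,6,3,4), (0,6,3,5), (0,6,4,5), (1,2,3,4), (1,2,3,5), (1,2,3,6), (1,2,4,5),
   (1,2,4,6), (1,2,5,6), (1,3,2,4), (1,3,2,5), (1,3,2,6), (1,3,4,5), (1,3,4,6), (1,3,5,6),
   (1,4,2,3), (1,4,2,5), (1,4,2,6), (1,4,3,5), (1,4,3,6), (1,4,5,6), (1,5,2,3), (1,5,2,4),
   (1,5,2,6), (1,5,3,4), (1,5,3,6), (1,5,4,6), (1,6,2,3), (1,6,2,4), (1,6,2,5), (1,6,3,4),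
   (1,6,3,5), (1,6,4,5), (2,3,4,5), (2,3,4,6), (2,3,5,6), (2,4,3,5), (2,4,3,6), (2,4,5,6),
   (2,5,3,4), (2,5,3,6), (2,5,4,6), (2,6,3,4), (2,6,3,5), (2,6,4,5), (3,4,5,6), (3,5,4,6),
   (3,6,4,5)]

/-- The `70` splits not displayed by `F0`. -/
def badF : List (ℕ × ℕ × ℕ × ℕ) :=
  [(0,1,2,3), (0,1,2,4), (0,1,2,5), (0,1,3,4), (0,1,3,5), (0,1,3,6), (0,1,4,5), (0,1,4,6),
   (0,1,5,6), (0,2,1,4), (0,2,1,6), (0,2,3,4), (0,2,3,6), (0,2,4,5), (0,2,4,6), (0,2,5,6),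
   (0,3,1,2), (0,3,1,4), (0,3,1,6), (0,3,2,4), (0,3,2,5), (0,3,4,5), (0,3,4,6), (0,3,5,6),
   (0,5,1,2), (0,5,1,3), (0,5,1,4), (0,5,1,6), (0,5,2,3), (0,5,2,4), (0,5,3,4), (0,5,3,6),
   (0,5,4,6), (0,6,1,2), (0,6,1,4), (0,6,2,3), (0,6,2,4), (0,6,2,5), (0,6,3,4), (0,6,4,5),
   (1,2,3,4), (1,2,3,5), (1,2,3,6), (1,2,4,5), (1,2,4,6), (1,2,5,6), (1,3,2,5), (1,3,4,5),
   (1,3,5,6), (1,4,2,3), (1,4,2,5), (1,4,3,5), (1,4,3,6), (1,4,5,6), (1,6,2,3), (1,6,2,4),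
   (1,6,2,5), (1,6,3,4), (1,6,3,5), (1,6,4,5), (2,3,4,5), (2,3,4,6), (2,3,5,6), (2,4,3,6),
   (2,4,5,6), (2,5,3,4), (2,5,3,6), (2,5,4,6), (3,4,5,6), (3,6,4,5)]

/-- The split `s` is realized by the partition with packed labels `w`. -/
def realized (w : ℕ) (s : ℕ × ℕ × ℕ × ℕ) : Bool :=
  Nat.beq (dig w s.1) (dig w s.2.1) && Nat.beq (dig w s.2.2.1) (dig w s.2.2.2) &&
    !(Nat.beq (dig w s.1) (dig w s.2.2.1))

/-- The four common partitions with more than one nontrivial class. -/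
def good4 : List (ℕ × ℕ × ℕ × ℕ) := [(0,4,5,6), (0,2,3,5), (0,1,2,6), (1,3,4,6)]

/-- The partition with labels `x` has exactly the nontrivial classes `{a,b}` and `{c,d}`. -/
def isPart (w : ℕ) (s : ℕ × ℕ × ℕ × ℕ) : Bool :=
  prs.all fun q => (Nat.beq (dig w q.1) (dig w q.2)) ==
    ((Nat.beq q.1 s.1 && Nat.beq q.2 s.2.1) || (Nat.beq q.1 s.2.2.1 && Nat.beq q.2 s.2.2.2))

def chkF (m : ℕ) : Bool := force (fun w => badF.all fun s => !realized w s) (pack pF m)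

def chkT (m : ℕ) : Bool := force (fun w => badF.any (realized w) ||
  ((spl.all fun s => !realized w s) || good4.any (isPart w))) (pack pT m)

set_option maxRecDepth 100000 in
lemma chkF_all : allBits chkF 12 0 = true := by decide +kernel

set_option maxRecDepth 100000 in
lemma chkT_all : allBits chkT 12 0 = true := by decide +kernel

end Pool.Agent.Lib.MP_6c0529_co
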