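import Pool.Agent.Lib.MP_6c0529_co.Upper

set_option autoImplicit false

namespace Pool.Agent.Lib.MP_6c0529_co

open Finset SLTree

lemma top_lt (p : ℕ → ℕ) (hp : ∀ v, 0 < v → v < 12 → p v < v) (m k v : ℕ) (hv : v < 12) :
    top p m k v < 12 := by
  induction k generalizing v with
  | zero => exact hv
  | succ k ih =>
    rw [top]
    split_ifs with h
    · exact hv
    · push Not at h
      have := hp v (Nat.pos_of_ne_zero h.1) hv
      exact ih (p v) (by omega)

lemma dig_pack (p : ℕ → ℕ) (hp : ∀ v, 0 < v → v < 12 → p v < v) (m i : ℕ) (hi : i < 7) :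
    dig (pack p m) i = top p m 12 (5 + i) := by
  have h5 := top_lt p hp m 12 5 (by omega)
  have h6 := top_lt p hp m 12 6 (by omega)
  have h7 := top_lt p hp m 12 7 (by omega)
  have h8 := top_lt p hp m 12 8 (by omega)
  have h9 := top_lt p hp m 12 9 (by omega)
  have h10 := top_lt p hp m 12 10 (by omega)
  have h11 := top_lt p hp m 12 11 (by omega)
  unfold dig pack
  rw [Nat.shiftRight_eq_div_pow, show (15 : ℕ) = 2 ^ 4 - 1 by norm_num,
    Nat.and_two_pow_sub_one_eq_mod]
  interval_cases i <;> norm_num <;> omega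

lemma realized_iff (p : ℕ → ℕ) (hp : ∀ v, 0 < v → v < 12 → p v < v) (m : ℕ)
    (r : Setoid (Fin 7))
    (hr : ∀ i j : Fin 7, r i j ↔ top p m 12 (5 + i.val) = top p m 12 (5 + j.val))
    (a b c d : ℕ) (ha : a < 7) (hb : b < 7) (hc : c < 7) (hd : d < 7) :
    realized (pack p m) (a, b, c, d) = true ↔
      (r ⟨a, ha⟩ ⟨b, hb⟩ ∧ r ⟨c, hc⟩ ⟨d, hd⟩ ∧ ¬ r ⟨a, ha⟩ ⟨c, hc⟩) := by
  unfold realized
  rw [Bool.and_eq_true, Bool.and_eq_true, Bool.not_eq_true', hr, hr, hr,
    dig_pack p hp m _ ha, dig_pack p hp m _ hb, dig_pack p hp m _ hc,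
    dig_pack p hp m _ hd, ← Bool.not_eq_true, Nat.beq_eq, Nat.beq_eq, Nat.beq_eq, and_assoc]

/-- All entries of the lists of splits are smaller than `7`. -/
lemma badF_lt : ∀ s ∈ badF, s.1 < 7 ∧ s.2.1 < 7 ∧ s.2.2.1 < 7 ∧ s.2.2.2 < 7 := by decide +kernel

/-- Normal form of a split. -/
def nrm (i j k l : ℕ) : ℕ × ℕ × ℕ × ℕ :=
  if min i j < min k l then (min i j, max i j, min k l, max k l)
  else (min k l, max k l, min i j, max i j)

lemma nrm_mem : ∀ i j k l : Fin 7, i ≠ j → k ≠ l → i ≠ k → i ≠ l → j ≠ k → j ≠ l →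
    nrm i.val j.val k.val l.val ∈ spl := by decide +kernel

lemma realized_nrm (p : ℕ → ℕ) (hp : ∀ v, 0 < v → v < 12 → p v < v) (m : ℕ)
    (r : Setoid (Fin 7))
    (hr : ∀ i j : Fin 7, r i j ↔ top p m 12 (5 + i.val) = top p m 12 (5 + j.val))
    (i j k l : Fin 7) (h1 : r i j) (h2 : r k l) (h3 : ¬ r i k) :
    realized (pack p m) (nrm i.val j.val k.val l.val) = true := by
  have hji := r.symm h1
  have hlk := r.symm h2
  have hki : ¬ r k i := fun h => h3 (r.symm h)
  have hjk : ¬ r j k := fun h => h3 (r.trans h1 h)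
  have hil : ¬ r i l := fun h => h3 (r.trans h (r.symm h2))
  have hjl : ¬ r j l := fun h => h3 (r.trans (r.trans h1 h) (r.symm h2))
  have hkj : ¬ r k j := fun h => hjk (r.symm h)
  have hli : ¬ r l i := fun h => hil (r.symm h)
  have hlj : ¬ r l j := fun h => hjl (r.symm h)
  have main : ∀ a b c d : Fin 7, r a b → r c d → ¬ r a c →
      realized (pack p m) (a.val, b.val, c.val, d.val) = true := by
    intro a b c d e1 e2 e3
    exact (realized_iff p hp m r hr a.val b.val c.val d.val a.isLt b.isLt c.isLt d.isLt).mpr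
      ⟨e1, e2, e3⟩
  unfold nrm
  rcases le_total i.val j.val with hij | hij <;> rcases le_total k.val l.val with hkl | hkl <;>
    simp only [min_eq_left hij, max_eq_right hij, min_eq_left hkl, max_eq_right hkl,
      min_eq_right hij, max_eq_left hij, min_eq_right hkl, max_eq_left hkl] <;>
    split_ifs <;> apply main <;> assumption

/-- The four exceptional common partitions. -/
def Gs (s : ℕ × ℕ × ℕ × ℕ) : Setoid (Fin 7) :=
  Setoid.ker (fun i : Fin 7 => if i.val = s.1 ∨ i.val = s.2.1 then 7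
    else if i.val = s.2.2.1 ∨ i.val = s.2.2.2 then 8 else i.val)

lemma Gs_iff : ∀ s ∈ good4, ∀ i j : Fin 7, i < j →
    (((i.val = s.1 ∧ j.val = s.2.1) ∨ (i.val = s.2.2.1 ∧ j.val = s.2.2.2)) ↔
      ((if i.val = s.1 ∨ i.val = s.2.1 then 7
        else if i.val = s.2.2.1 ∨ i.val = s.2.2.2 then 8 else i.val) =
       (if j.val = s.1 ∨ j.val = s.2.1 then 7
        else if j.val = s.2.2.1 ∨ j.val = s.2.2.2 then 8 else j.val))) := by
  decide +kernel

lemma prs_mem : ∀ i j : Fin 7, i < j → (i.val, j.val) ∈ prs := by decide +kernel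

lemma eq_Gs (p : ℕ → ℕ) (hp : ∀ v, 0 < v → v < 12 → p v < v) (m : ℕ)
    (r : Setoid (Fin 7))
    (hr : ∀ i j : Fin 7, r i j ↔ top p m 12 (5 + i.val) = top p m 12 (5 + j.val))
    (s : ℕ × ℕ × ℕ × ℕ) (hs : s ∈ good4) (h : isPart (pack p m) s = true) : r = Gs s := by
  have key : ∀ i j : Fin 7, i < j → (r i j ↔ Gs s i j) := by
    intro i j hij
    have h1 := List.all_eq_true.mp h _ (prs_mem i j hij)
    have h2 := Gs_iff s hs i j hij
    change _ ↔ ((if i.val = s.1 ∨ i.val = s.2.1 then 7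
        else if i.val = s.2.2.1 ∨ i.val = s.2.2.2 then 8 else i.val) =
       (if j.val = s.1 ∨ j.val = s.2.1 then 7
        else if j.val = s.2.2.1 ∨ j.val = s.2.2.2 then 8 else j.val))
    rw [← h2, hr]
    simp only [beq_iff_eq, dig_pack p hp m _ i.isLt, dig_pack p hp m _ j.isLt] at h1
    rw [Bool.eq_iff_iff, Nat.beq_eq, Bool.or_eq_true, Bool.and_eq_true, Bool.and_eq_true,
      Nat.beq_eq, Nat.beq_eq, Nat.beq_eq, Nat.beq_eq] at h1
    exact h1
  ext i j
  rcases lt_trichotomy i j with h1 | h1 | h1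
  · exact key i j h1
  · subst h1
    exact ⟨fun _ => (Gs s).refl _, fun _ => r.refl _⟩
  · exact ⟨fun e => (Gs s).symm ((key j i h1).mp (r.symm e)),
      fun e => r.symm ((key j i h1).mpr ((Gs s).symm e))⟩

lemma common_mem (r : Setoid (Fin 7)) (hT : r ∈ T0.parts) (hF : r ∈ F0.parts) :
    OneClass r ∨ ∃ s ∈ good4, r = Gs s := by
  obtain ⟨m, hm, hr⟩ := parts_mk (by rfl) hT
  obtain ⟨m', hm', hr'⟩ := parts_mk (by rfl) hF
  have c1 := allBits_sound chkT 12 0 chkT_all m (Nat.div_eq_of_lt (by norm_num; exact hm))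
  have c2 := allBits_sound chkF 12 0 chkF_all m' (Nat.div_eq_of_lt (by norm_num; exact hm'))
  unfold chkT at c1
  unfold chkF at c2
  rw [force_eq] at c1 c2
  rw [Bool.or_eq_true, Bool.or_eq_true] at c1
  have hbad : ∀ s ∈ badF, ¬ realized (pack pT m) s = true := by
    intro s hs h
    obtain ⟨h1, h2, h3, h4⟩ := badF_lt s hs
    have h5 := List.all_eq_true.mp c2 s hs
    have h6 := (realized_iff pT pT_lt m r hr s.1 s.2.1 s.2.2.1 s.2.2.2 h1 h2 h3 h4).mp h
    have h7 := (realized_iff pF pF_lt m' r hr' s.1 s.2.1 s.2.2.1 s.2.2.2 h1 h2 h3 h4).mpr h6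
    simp only [Bool.not_eq_true'] at h5
    have h8 : realized (pack pF m') s = true := h7
    rw [h5] at h8
    exact absurd h8 (by simp)
  rcases c1 with c1 | c1 | c1
  · obtain ⟨s, hs, h⟩ := List.any_eq_true.mp c1
    exact absurd h (hbad s hs)
  · left
    intro i j k l h1 hij h2 hkl
    by_contra h3
    have n1 : i ≠ k := by rintro rfl; exact h3 (r.refl _)
    have n2 : i ≠ l := by rintro rfl; exact h3 (r.symm h2)
    have n3 : j ≠ k := by rintro rfl; exact h3 h1
    have n4 : j ≠ l := by rintro rfl; exact h3 (r.trans h1 (r.symm h2))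
    have h4 := realized_nrm pT pT_lt m r hr i j k l h1 h2 h3
    have h5 := List.all_eq_true.mp c1 _ (nrm_mem i j k l hij hkl n1 n2 n3 n4)
    rw [h4] at h5
    exact absurd h5 (by simp)
  · right
    obtain ⟨s, hs, h⟩ := List.any_eq_true.mp c1
    exact ⟨s, hs, eq_Gs pT pT_lt m r hr s hs h⟩

/-- The two explicit trees share at most `125` partitions. -/
theorem upper : (T0.parts ∩ F0.parts).ncard ≤ 125 := by
  classical
  have := finite_setoid
  have hsub : T0.parts ∩ F0.parts ⊆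
      {r | OneClass r} ∪ ((good4.map Gs).toFinset : Set (Setoid (Fin 7))) := by
    rintro r ⟨h1, h2⟩
    rcases common_mem r h1 h2 with h | ⟨s, hs, rfl⟩
    · exact Or.inl h
    · right
      rw [mem_coe, List.mem_toFinset]
      exact List.mem_map.mpr ⟨s, hs, rfl⟩
  have h1 := Set.ncard_le_ncard hsub (Set.toFinite _)
  have h2 := Set.ncard_union_le {r | OneClass r}
    ((good4.map Gs).toFinset : Set (Setoid (Fin 7)))
  have h3 : ((good4.map Gs).toFinset : Set (Setoid (Fin 7))).ncard ≤ 4 := by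
    rw [Set.ncard_coe_finset]
    exact List.toFinset_card_le _
  rw [ncard_oneClass] at h2
  omega

theorem s_le : s 7 ≤ 125 := by
  refine le_trans (Nat.sInf_le ⟨T0, F0, rfl⟩) upper

theorem le_c : 126 ≤ c 7 := by
  have hne : {k | ∃ T F : SLTree 7, T.IsCaterpillar ∧ F.IsCaterpillar ∧
      k = (T.parts ∩ F.parts).ncard}.Nonempty :=
    ⟨_, T0, T0, T0_caterpillar, T0_caterpillar, rfl⟩
  obtain ⟨T, F, hT, hF, h⟩ := Nat.sInf_mem hne
  unfold c
  rw [h]
  exact lower hT hF

end Pool.Agent.Lib.MP_6c0529_co
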